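import Mathlib
import Pool.Agent.LibNamba.Defs
import Pool.Agent.LibNamba.Final

/-!
Assuming CH, the Laver-like Namba forcing adds no cofinal branch to any tree of height `ω₁` with
countable levels.
-/

open Cardinal Ordinal

namespace Pool.Agent.Results.MP_096ca0_lc.NoNewBranch

open Pool.Agent.LibNamba

/-- CH implies that the Laver-like Namba forcing adds no cofinal branch to any ground-model tree of
height `ω₁` with countable levels. -/
theorem result (CH : (𝔠 : Cardinal.{0}) = ℵ_ 1) (T : Type) [PartialOrder T] [WellFoundedLT T]
    (hT : IsOmegaOneTree T) : ¬ AddsCofinalBranch LaverNamba T :=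
  laverNamba_no_branch CH T hT

end Pool.Agent.Results.MP_096ca0_lc.NoNewBranch
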